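import Pool.Agent.W236.TZ.Defs

set_option autoImplicit false

open scoped Classical
open Finset

namespace Pool.Agent.W310.TZ

open Pool.Agent.W236.TZ

variable {n k : ℕ}

/-- the factor of the pair `(i, j)` -/
def fac (a b : ℚ) : ℚ := ((a - 1 - b) * (a + b)) / ((a - 1 + b) * (a - b))

/-- the rows which are not empty -/
noncomputable def PP (ν : Fin (k + 1) → ℕ) : Finset (Fin (k + 1)) :=
  univ.filter (fun i => ν i ≠ 0)

/-- the product of the factors -/
noncomputable def AA (ν : Fin (k + 1) → ℕ) (i : Fin (k + 1)) : ℚ :=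
  ∏ j ∈ (PP ν).erase i, fac (ν i) (ν j)

lemma mem_PP (ν : Fin (k + 1) → ℕ) (i : Fin (k + 1)) : i ∈ PP ν ↔ ν i ≠ 0 := by
  unfold PP
  simp

/-- the pair product -/
noncomputable def DD (μ : Fin (k + 1) → ℕ) : ℚ :=
  ∏ i : Fin (k + 1), ∏ j : Fin (k + 1),
    if i < j ∧ μ j ≠ 0 then ((μ i : ℚ) - μ j) / ((μ i : ℚ) + μ j) else 1

lemma dn_self (ν : Fin (k + 1) → ℕ) (i : Fin (k + 1)) : dn ν i i = ν i - 1 := by
  simp [dn]

lemma dn_ne (ν : Fin (k + 1) → ℕ) {i j : Fin (k + 1)} (h : j ≠ i) : dn ν i j = ν j := by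
  simp [dn, h]

/-- the ratio of row `j` -/
noncomputable def rr (ν : Fin (k + 1) → ℕ) (i j : Fin (k + 1)) : ℚ :=
  if ν j ≠ 0 then fac (ν i) (ν j) else 1

/-- the factor of the pair product -/
noncomputable def gf (μ : Fin (k + 1) → ℕ) (a b : Fin (k + 1)) : ℚ :=
  if a < b ∧ μ b ≠ 0 then ((μ a : ℚ) - μ b) / ((μ a : ℚ) + μ b) else 1

lemma gf_pos (μ : Fin (k + 1) → ℕ) (a b : Fin (k + 1)) (h : a < b) (hb : μ b ≠ 0) :
    gf μ a b = ((μ a : ℚ) - μ b) / ((μ a : ℚ) + μ b) := if_pos ⟨h, hb⟩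

lemma gf_zero (μ : Fin (k + 1) → ℕ) (a b : Fin (k + 1)) (hb : μ b = 0) :
    gf μ a b = 1 := if_neg (fun h => h.2 hb)

lemma gf_neg (μ : Fin (k + 1) → ℕ) (a b : Fin (k + 1)) (h : ¬ a < b) :
    gf μ a b = 1 := if_neg (fun h' => h h'.1)

lemma rr_pos (ν : Fin (k + 1) → ℕ) (i j : Fin (k + 1)) (h : ν j ≠ 0) :
    rr ν i j = fac (ν i) (ν j) := if_pos h

lemma key1 (ν : Fin (k + 1) → ℕ) (hν : Vd n k ν) (a b : Fin (k + 1)) (_hi : ν a ≠ 0)
    (hab : a < b) : gf (dn ν a) a b = gf ν a b * rr ν a b := by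
  have hba : b ≠ a := ne_of_gt hab
  by_cases hb : ν b = 0
  · rw [gf_zero _ _ _ (by rw [dn_ne ν hba]; exact hb), gf_zero _ _ _ hb]
    unfold rr
    rw [if_neg (by simp [hb])]
    ring
  · have h1 : ν b < ν a := (hν.2 a b hab).resolve_left hb
    have h2 : 1 ≤ ν b := Nat.pos_of_ne_zero hb
    rw [gf_pos _ _ _ hab (by rw [dn_ne ν hba]; exact hb), gf_pos _ _ _ hab hb, rr_pos _ _ _ hb,
      dn_ne ν hba, dn_self]
    have h3 : ((ν a - 1 : ℕ) : ℚ) = (ν a : ℚ) - 1 := by
      rw [Nat.cast_sub (by omega)]; simp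
    rw [h3]
    unfold fac
    have h1' : (ν b : ℚ) < ν a := by exact_mod_cast h1
    have h2' : (1 : ℚ) ≤ ν b := by exact_mod_cast h2
    have n1 : (ν a : ℚ) - ν b ≠ 0 := by linarith
    have n2 : (ν a : ℚ) + ν b ≠ 0 := by linarith
    have n3 : (ν a : ℚ) - 1 + ν b ≠ 0 := by linarith
    rw [div_mul_div_comm, div_eq_div_iff n3 (mul_ne_zero n2 (mul_ne_zero n3 n1))]
    ring

lemma key2 (ν : Fin (k + 1) → ℕ) (hν : Vd n k ν) (a b : Fin (k + 1)) (hi : ν b ≠ 0)
    (hab : a < b) : gf (dn ν b) a b = gf ν a b * rr ν b a := by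
  have hab' : a ≠ b := ne_of_lt hab
  have h1 : ν b < ν a := (hν.2 a b hab).resolve_left hi
  have h2 : 1 ≤ ν b := Nat.pos_of_ne_zero hi
  have ha : ν a ≠ 0 := by omega
  rw [rr_pos _ _ _ ha, gf_pos _ _ _ hab hi]
  have h1' : (ν b : ℚ) < ν a := by exact_mod_cast h1
  have h2' : (1 : ℚ) ≤ ν b := by exact_mod_cast h2
  have n1 : (ν b : ℚ) - ν a ≠ 0 := by linarith
  have n2 : (ν a : ℚ) + ν b ≠ 0 := by linarith
  have n3 : (ν b : ℚ) - 1 + ν a ≠ 0 := by linarith
  unfold fac
  rw [div_mul_div_comm]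
  by_cases hb1 : ν b = 1
  · rw [gf_zero _ _ _ (by rw [dn_self, hb1]), eq_comm, div_eq_one_iff_eq
      (mul_ne_zero n2 (mul_ne_zero n3 n1)), hb1]
    push_cast
    ring
  · have h3 : ((ν b - 1 : ℕ) : ℚ) = (ν b : ℚ) - 1 := by
      rw [Nat.cast_sub (by omega)]; simp
    rw [gf_pos _ _ _ hab (by rw [dn_self]; omega), dn_self, dn_ne ν hab', h3]
    have n5 : (ν a : ℚ) + (ν b - 1) ≠ 0 := by linarith
    rw [div_eq_div_iff n5 (mul_ne_zero n2 (mul_ne_zero n3 n1))]
    ring

lemma DD_dn (ν : Fin (k + 1) → ℕ) (hν : Vd n k ν) (i : Fin (k + 1)) (hi : ν i ≠ 0) :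
    DD (dn ν i) = DD ν * AA ν i := by
  have key : ∀ a b : Fin (k + 1), gf (dn ν i) a b = gf ν a b *
      ((if a = i ∧ i < b then rr ν i b else 1) * (if b = i ∧ a < i then rr ν i a else 1)) := by
    intro a b
    by_cases hab : a < b
    · by_cases hai : a = i
      · subst hai
        have c1 : (if a = a ∧ a < b then rr ν a b else 1) = rr ν a b := if_pos ⟨rfl, hab⟩
        have c2 : (if b = a ∧ a < a then rr ν a a else 1) = 1 :=
          if_neg (fun h => lt_irrefl _ h.2)
        rw [c1, c2, mul_one]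
        exact key1 ν hν a b hi hab
      · have c1 : (if a = i ∧ i < b then rr ν i b else 1) = 1 := if_neg (fun h => hai h.1)
        by_cases hbi : b = i
        · subst hbi
          have c2 : (if b = b ∧ a < b then rr ν b a else 1) = rr ν b a := if_pos ⟨rfl, hab⟩
          rw [c1, c2, one_mul]
          exact key2 ν hν a b hi hab
        · have c2 : (if b = i ∧ a < i then rr ν i a else 1) = 1 := if_neg (fun h => hbi h.1)
          rw [c1, c2]
          unfold gf
          rw [dn_ne ν hbi, dn_ne ν hai]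
          ring
    · have c1 : (if a = i ∧ i < b then rr ν i b else 1) = 1 :=
        if_neg (fun (h : a = i ∧ i < b) => hab (by rw [h.1]; exact h.2))
      have c2 : (if b = i ∧ a < i then rr ν i a else 1) = 1 :=
        if_neg (fun (h : b = i ∧ a < i) => hab (by rw [h.1]; exact h.2))
      rw [c1, c2, gf_neg _ _ _ hab, gf_neg _ _ _ hab]
      ring
  have hA : AA ν i = ∏ j : Fin (k + 1), (if j ≠ i then rr ν i j else 1) := by
    unfold AA
    rw [← prod_filter]
    unfold rr
    rw [← prod_filter, filter_filter]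
    refine prod_congr ?_ fun _ _ => rfl
    ext j
    simp [PP, and_comm]
  change ∏ a : Fin (k + 1), ∏ b : Fin (k + 1), gf (dn ν i) a b =
    (∏ a : Fin (k + 1), ∏ b : Fin (k + 1), gf ν a b) * AA ν i
  rw [prod_congr rfl fun a _ => prod_congr rfl fun b _ => key a b]
  simp only [prod_mul_distrib]
  congr 1
  have e1 : ∏ a : Fin (k + 1), ∏ b : Fin (k + 1), (if a = i ∧ i < b then rr ν i b else 1)
      = ∏ b : Fin (k + 1), (if i < b then rr ν i b else 1) := by
    rw [prod_eq_single i]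
    · refine prod_congr rfl fun b _ => ?_
      simp
    · intro a _ ha
      refine prod_eq_one fun b _ => ?_
      rw [if_neg (fun h => ha h.1)]
    · intro h
      exact absurd (mem_univ i) h
  have e2 : ∏ a : Fin (k + 1), ∏ b : Fin (k + 1), (if b = i ∧ a < i then rr ν i a else 1)
      = ∏ a : Fin (k + 1), (if a < i then rr ν i a else 1) := by
    refine prod_congr rfl fun a _ => ?_
    rw [prod_eq_single i]
    · simp
    · intro b _ hb
      rw [if_neg (fun h => hb h.1)]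
    · intro h
      exact absurd (mem_univ i) h
  rw [e1, e2, hA, ← prod_mul_distrib]
  refine prod_congr rfl fun j _ => ?_
  rcases lt_trichotomy j i with h | h | h
  · rw [if_neg (not_lt.mpr h.le), if_pos h, if_pos h.ne, one_mul]
  · subst h
    simp
  · rw [if_pos h, if_neg (not_lt.mpr h.le), if_pos h.ne', mul_one]

lemma sum_dn (ν : Fin (k + 1) → ℕ) (i : Fin (k + 1)) (hi : ν i ≠ 0) :
    ∑ j, dn ν i j + 1 = ∑ j, ν j := by
  rw [← add_sum_erase univ (dn ν i) (mem_univ i), ← add_sum_erase univ ν (mem_univ i), dn_self]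
  have : ∑ x ∈ univ.erase i, dn ν i x = ∑ x ∈ univ.erase i, ν x :=
    sum_congr rfl fun x hx => dn_ne ν (ne_of_mem_erase hx)
  rw [this]
  omega

lemma Gf_dn (ν : Fin (k + 1) → ℕ) (hν : Vd n k ν) (i : Fin (k + 1)) (hi : ν i ≠ 0) :
    (∑ j, (ν j : ℚ)) * Gf (dn ν i) = Gf ν * ((ν i : ℚ) * AA ν i) := by
  have h1 : Gf (dn ν i) = ((∑ j, dn ν i j).factorial : ℚ) *
      (∏ j, (1 / ((dn ν i j).factorial : ℚ))) * DD (dn ν i) := rfl
  have h2 : Gf ν = ((∑ j, ν j).factorial : ℚ) * (∏ j, (1 / ((ν j).factorial : ℚ))) * DD ν := rfl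
  have h3 : ∏ j, (1 / ((dn ν i j).factorial : ℚ)) = (ν i : ℚ) *
      ∏ j, (1 / ((ν j).factorial : ℚ)) := by
    rw [← mul_prod_erase univ (fun j => 1 / ((dn ν i j).factorial : ℚ)) (mem_univ i),
      ← mul_prod_erase univ (fun j => 1 / ((ν j).factorial : ℚ)) (mem_univ i), dn_self]
    have e : ∏ x ∈ univ.erase i, (1 / ((dn ν i x).factorial : ℚ))
        = ∏ x ∈ univ.erase i, (1 / ((ν x).factorial : ℚ)) :=
      prod_congr rfl fun x hx => by rw [dn_ne ν (ne_of_mem_erase hx)]
    rw [e, ← mul_assoc]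
    congr 1
    obtain ⟨m, hm⟩ : ∃ m, ν i = m + 1 := ⟨ν i - 1, by omega⟩
    rw [hm, Nat.add_sub_cancel, Nat.factorial_succ]
    push_cast
    have : ((m : ℚ) + 1) ≠ 0 := by positivity
    have : ((m.factorial : ℕ) : ℚ) ≠ 0 := by exact_mod_cast m.factorial_ne_zero
    field_simp
  have h4 : ((∑ j, ν j).factorial : ℚ) = (∑ j, (ν j : ℚ)) * ((∑ j, dn ν i j).factorial : ℚ) := by
    rw [← sum_dn ν i hi, Nat.factorial_succ, sum_dn ν i hi]
    push_cast
    ring
  rw [h1, h2, h3, h4, DD_dn ν hν i hi]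
  ring

lemma AA_zero (ν : Fin (k + 1) → ℕ) (hν : Vd n k ν) (i : Fin (k + 1)) (hi : ν i ≠ 0)
    (h : ¬ Vd n k (dn ν i)) : AA ν i = 0 := by
  have h1 : ∀ j : Fin (k + 1), dn ν i j ≤ n - 2 * (j : ℕ) := by
    intro j
    refine le_trans ?_ (hν.1 j)
    by_cases hj : j = i
    · rw [hj, dn_self]; omega
    · rw [dn_ne ν hj]
  have h2 : ¬ ∀ a b : Fin (k + 1), a < b → dn ν i b = 0 ∨ dn ν i b < dn ν i a :=
    fun h' => h ⟨h1, h'⟩
  push Not at h2
  obtain ⟨a, b, hab, hb0, hba⟩ := h2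
  have h3 := hν.2 a b hab
  by_cases hbi : b = i
  · subst hbi
    rw [dn_self] at hb0 hba
    rw [dn_ne ν (ne_of_lt hab)] at hba
    exfalso
    have := h3.resolve_left hi
    omega
  · rw [dn_ne ν hbi] at hb0 hba
    by_cases hai : a = i
    · subst hai
      rw [dn_self] at hba
      have h4 := h3.resolve_left hb0
      unfold AA
      refine prod_eq_zero (mem_erase.mpr ⟨hbi, (mem_PP ν b).mpr hb0⟩) ?_
      have h5 : ν a = ν b + 1 := by omega
      unfold fac
      rw [h5]
      push_cast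
      rw [show ((ν b : ℚ) + 1 - 1 - ν b) = 0 by ring]
      simp
    · rw [dn_ne ν hai] at hba
      exfalso
      have := h3.resolve_left hb0
      omega

lemma nu_ne (ν : Fin (k + 1) → ℕ) (hν : Vd n k ν) (i j : Fin (k + 1)) (hi : ν i ≠ 0)
    (hj : ν j ≠ 0) (hij : i ≠ j) : ν i ≠ ν j := by
  rcases lt_or_gt_of_ne hij with h | h
  · have := (hν.2 i j h).resolve_left hj
    omega
  · have := (hν.2 j i h).resolve_left hi
    omega

theorem g_ (hL : S_LAG) : S_G := by
  intro n k _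
  refine ⟨?_, ?_⟩
  · unfold Gf
    simp
  · intro ν hν h0
    have hpos : ∃ i, ν i ≠ 0 := by
      by_contra hcon
      push Not at hcon
      exact h0 (funext hcon)
    have hS : (∑ j, (ν j : ℚ)) ≠ 0 := by
      obtain ⟨i, hi⟩ := hpos
      have h1 : 0 < ∑ j, ν j :=
        lt_of_lt_of_le (Nat.pos_of_ne_zero hi) (single_le_sum (fun _ _ => Nat.zero_le _)
          (mem_univ i))
      have h2 : (0 : ℚ) < ((∑ j, ν j : ℕ) : ℚ) := by exact_mod_cast h1
      push_cast at h2
      exact h2.ne'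
    have hlag := hL (Fin (k + 1)) (PP ν) (fun i => (ν i : ℚ))
      (fun i hi => by
        have := (mem_PP ν i).mp hi
        exact_mod_cast Nat.pos_of_ne_zero this)
      (fun i hi j hj hij => by
        have := nu_ne ν hν i j ((mem_PP ν i).mp hi) ((mem_PP ν j).mp hj) hij
        exact_mod_cast this)
    have e1 : ∑ i ∈ PP ν, (ν i : ℚ) = ∑ i, (ν i : ℚ) := by
      unfold PP
      rw [sum_filter]
      refine sum_congr rfl fun i _ => ?_
      by_cases h : ν i = 0
      · simp [h]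
      · rw [if_pos h]
    have e2 : ∑ i : Fin (k + 1), (if 0 < ν i ∧ Vd n k (dn ν i) then Gf (dn ν i) else 0)
        = ∑ i ∈ PP ν, Gf ν * ((ν i : ℚ) * AA ν i) / (∑ j, (ν j : ℚ)) := by
      unfold PP
      rw [sum_filter]
      refine sum_congr rfl fun i _ => ?_
      by_cases h : ν i = 0
      · rw [if_neg (by rw [h]; simp), if_neg (by simp [h])]
      · rw [if_pos h]
        by_cases hv : Vd n k (dn ν i)
        · rw [if_pos ⟨Nat.pos_of_ne_zero h, hv⟩, ← Gf_dn ν hν i h, mul_div_cancel_left₀ _ hS]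
        · rw [if_neg (fun h' => hv h'.2), AA_zero ν hν i h hv]
          simp
    rw [e2, ← sum_div, ← mul_sum]
    have e3 : ∑ i ∈ PP ν, (ν i : ℚ) * AA ν i = ∑ i, (ν i : ℚ) := by
      rw [← e1, ← hlag]
      rfl
    rw [e3, mul_div_cancel_right₀ _ hS]

lemma prod_erase_ite {ι : Type} [DecidableEq ι] [Fintype ι] (i : ι) (f : ι → ℚ) :
    ∏ j ∈ univ.erase i, f j = ∏ j, if j = i then 1 else f j := by
  rw [← mul_prod_erase univ (fun j => if j = i then 1 else f j) (mem_univ i), if_pos rfl, one_mul]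
  refine prod_congr rfl fun j hj => ?_
  rw [if_neg (ne_of_mem_erase hj)]

theorem gg (hL : S_LAG) : S_GG := by
  intro n k _ ν hν h2
  have hge : ∀ i, 2 ≤ ν i := by
    intro i
    rcases eq_or_lt_of_le (Fin.le_last i) with h | h
    · rw [h]; exact h2
    · have := (hν.2 i (Fin.last k) h).resolve_left (by omega)
      omega
  have hne : ∀ i, ν i ≠ 0 := fun i => by have := hge i; omega
  have hPP : PP ν = univ := by
    ext i
    simp [mem_PP, hne i]
  have hgeQ : ∀ i, (2 : ℚ) ≤ ν i := fun i => by exact_mod_cast hge i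
  set S : ℚ := ∑ j, (ν j : ℚ) with hSdef
  have hS : S ≠ 0 := by
    have h1 : (2 : ℚ) ≤ S := le_trans (hgeQ 0)
      (single_le_sum (f := fun j => (ν j : ℚ)) (fun _ _ => by positivity) (mem_univ 0))
    intro h
    rw [h] at h1
    norm_num at h1
  set Pi : ℚ := ∏ i, (((ν i : ℚ) - 1) / ((ν i : ℚ) + 1)) with hPi
  have hPi0 : Pi ≠ 0 := by
    rw [hPi, prod_ne_zero_iff]
    intro i _
    have := hgeQ i
    refine div_ne_zero ?_ ?_ <;> linarith
  -- the identity
  let x : Option (Fin (k + 1)) → ℚ := fun o => o.elim 1 (fun i => (ν i : ℚ))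
  have hlag := hL (Option (Fin (k + 1))) univ x
    (by
      rintro (_ | i) -
      · exact le_rfl
      · exact le_trans (by norm_num) (hgeQ i))
    (by
      rintro (_ | i) - (_ | j) - hij
      · exact absurd rfl hij
      · have := hgeQ j
        show (1 : ℚ) ≠ ν j
        linarith
      · have := hgeQ i
        show (ν i : ℚ) ≠ 1
        linarith
      · have := nu_ne ν hν i j (hne i) (hne j) (fun h => hij (by rw [h]))
        show (ν i : ℚ) ≠ ν j
        exact_mod_cast this)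
  have hlag2 : ∏ j : Fin (k + 1), fac 1 (ν j) +
      ∑ i : Fin (k + 1), (ν i : ℚ) * (fac (ν i) 1 * AA ν i) = 1 + S := by
    rw [Fintype.sum_option, Fintype.sum_option] at hlag
    have e1 : ∏ j ∈ (univ : Finset (Option (Fin (k + 1)))).erase none,
        ((x none - 1 - x j) * (x none + x j)) / ((x none - 1 + x j) * (x none - x j))
        = ∏ j : Fin (k + 1), fac 1 (ν j) := by
      rw [prod_erase_ite, Fintype.prod_option, if_pos rfl, one_mul]
      refine prod_congr rfl fun j _ => ?_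
      rw [if_neg (by simp)]
      rfl
    have e2 : ∀ i : Fin (k + 1), ∏ j ∈ (univ : Finset (Option (Fin (k + 1)))).erase (some i),
        ((x (some i) - 1 - x j) * (x (some i) + x j)) /
          ((x (some i) - 1 + x j) * (x (some i) - x j))
        = fac (ν i) 1 * AA ν i := by
      intro i
      rw [prod_erase_ite, Fintype.prod_option, if_neg (by simp)]
      congr 1
      unfold AA
      rw [hPP, prod_erase_ite]
      refine prod_congr rfl fun j _ => ?_
      by_cases hj : j = i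
      · rw [if_pos hj, if_pos (by rw [hj])]
      · rw [if_neg hj, if_neg (by simpa using hj)]
        rfl
    rw [e1] at hlag
    simp only [e2] at hlag
    have e3 : x none = 1 := rfl
    rw [e3, one_mul] at hlag
    exact hlag
  have hfac1 : ∏ j : Fin (k + 1), fac 1 (ν j) = 1 / Pi := by
    rw [hPi, one_div, ← prod_inv_distrib]
    refine prod_congr rfl fun j _ => ?_
    have := hgeQ j
    unfold fac
    have n1 : (ν j : ℚ) ≠ 0 := by linarith
    have n2 : (ν j : ℚ) - 1 ≠ 0 := by linarith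
    have n3 : (1 : ℚ) - ν j ≠ 0 := by linarith
    have n4 : (ν j : ℚ) + 1 ≠ 0 := by linarith
    rw [inv_div, div_eq_div_iff (by
      rw [show (1 : ℚ) - 1 + ν j = ν j by ring]
      exact mul_ne_zero n1 n3) n2]
    ring
  -- the terms
  have hterm : ∀ i : Fin (k + 1),
      (if Vd n k (dn ν i) ∧ 2 ≤ dn ν i (Fin.last k) then Gg (dn ν i) else 0)
      = Pi * Gf ν * ((ν i : ℚ) * (fac (ν i) 1 * AA ν i)) := by
    intro i
    have hi2 := hgeQ i
    have n1 : (ν i : ℚ) ≠ 0 := by linarith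
    have n2 : (ν i : ℚ) - 1 ≠ 0 := by linarith
    have n4 : (ν i : ℚ) + 1 ≠ 0 := by linarith
    have hfac : fac (ν i) 1 = (((ν i : ℚ) - 2) * (ν i + 1)) / (ν i * (ν i - 1)) := by
      unfold fac
      congr 1 <;> ring
    by_cases hv : Vd n k (dn ν i)
    · by_cases hl : 2 ≤ dn ν i (Fin.last k)
      · rw [if_pos ⟨hv, hl⟩]
        have e0 : Gg (dn ν i) = ((∑ j, (dn ν i j : ℚ)) + 1) *
            (∏ j, (((dn ν i j : ℚ) - 1) / ((dn ν i j : ℚ) + 1))) * Gf (dn ν i) := rfl
        have e1 : (∑ j, (dn ν i j : ℚ)) + 1 = S := by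
          have := sum_dn ν i (hne i)
          rw [hSdef]
          exact_mod_cast this
        have hc : ((ν i - 1 : ℕ) : ℚ) = (ν i : ℚ) - 1 := by
          rw [Nat.cast_sub (by have := hge i; omega)]; simp
        have e2 : (∏ j, (((dn ν i j : ℚ) - 1) / ((dn ν i j : ℚ) + 1)))
            = Pi * (((ν i : ℚ) - 2) * (ν i + 1) / (ν i * (ν i - 1))) := by
          rw [hPi, ← mul_prod_erase univ (fun j => ((dn ν i j : ℚ) - 1) / ((dn ν i j : ℚ) + 1))
            (mem_univ i), ← mul_prod_erase univ (fun j => ((ν j : ℚ) - 1) / ((ν j : ℚ) + 1))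
            (mem_univ i), dn_self, hc]
          have e3 : ∏ x ∈ univ.erase i, (((dn ν i x : ℚ) - 1) / ((dn ν i x : ℚ) + 1))
              = ∏ x ∈ univ.erase i, (((ν x : ℚ) - 1) / ((ν x : ℚ) + 1)) :=
            prod_congr rfl fun x hx => by rw [dn_ne ν (ne_of_mem_erase hx)]
          rw [e3]
          generalize ∏ x ∈ univ.erase i, (((ν x : ℚ) - 1) / ((ν x : ℚ) + 1)) = Z
          rw [show (ν i : ℚ) - 1 + 1 = ν i by ring]
          field_simp
          ring
        rw [e0, e1, e2, hfac]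
        have e4 := Gf_dn ν hν i (hne i)
        rw [← hSdef] at e4
        calc S * (Pi * (((ν i : ℚ) - 2) * (ν i + 1) / (ν i * (ν i - 1)))) * Gf (dn ν i)
            = Pi * (((ν i : ℚ) - 2) * (ν i + 1) / (ν i * (ν i - 1))) * (S * Gf (dn ν i)) := by
              ring
          _ = _ := by rw [e4]; ring
      · rw [if_neg (fun h => hl h.2)]
        have hil : i = Fin.last k := by
          by_contra hne'
          rw [dn_ne ν (fun h => hne' h.symm)] at hl
          exact hl h2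
        have hi2' : ν i = 2 := by
          rw [← hil, dn_self] at hl
          have := hge i
          omega
        rw [hfac, hi2']
        norm_num
    · rw [if_neg (fun h => hv h.1), AA_zero ν hν i (hne i) hv]
      simp
  rw [sum_congr rfl fun i _ => hterm i, ← mul_sum]
  have e5 : ∑ i : Fin (k + 1), (ν i : ℚ) * (fac (ν i) 1 * AA ν i) = 1 + S - 1 / Pi := by
    rw [← hlag2, hfac1]; ring
  rw [e5]
  have e6 : Gg ν = (S + 1) * Pi * Gf ν := rfl
  rw [e6]
  field_simp
  ring

end Pool.Agent.W310.TZ
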